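import Mathlib
import Pool.Agent.Q243.HessePlane

/-!
# Injective homomorphism counts into planes of prime order do not converge

For `H` the incidence graph of the affine plane of order three, `inj(H, G_p)` is zero for every
prime `p ≡ 2 (mod 3)` and positive for every prime `p ≡ 1 (mod 3)`.
-/

namespace Pool.Agent.Results.MP_5e7574_co.PrimePlanesDiverge

open Filter Topology Pool.Agent.Q243.HessePlane

/-- The logarithm of a natural number in base `p`, with `log 0 = -∞`. -/
noncomputable def logp (p m : ℕ) : EReal := if m = 0 then ⊥ else ((Real.logb p m : ℝ) : EReal)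

/-- `log_p inj(H, G_p)` where `p` is the `n`-th prime. -/
noncomputable def seq (H : Bip) (n : ℕ) : EReal :=
  haveI : Fact (Nat.nth Nat.Prime n).Prime := ⟨Nat.prime_nth_prime n⟩
  logp (Nat.nth Nat.Prime n) (inj H (plane (ZMod (Nat.nth Nat.Prime n))))

lemma frequently_mod (a : ℕ) (ha : a.Coprime 3) :
    ∃ᶠ n in atTop, Nat.nth Nat.Prime n % 3 = a % 3 := by
  rw [frequently_atTop]
  intro N
  obtain ⟨p, hp1, hp2, hp3⟩ := Nat.forall_exists_prime_gt_and_modEq (Nat.nth Nat.Prime N)
    (by norm_num : (3 : ℕ) ≠ 0) ha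
  refine ⟨Nat.count Nat.Prime p, ?_, ?_⟩
  · rw [← Nat.nth_le_nth Nat.infinite_setOfPred_prime, Nat.nth_count hp2]
    exact le_of_lt hp1
  · rw [Nat.nth_count hp2]
    exact hp3

/-- There is a bipartite graph `H` with an edge such that `log_p inj(H, G_p)` does not converge as
`p` runs through the primes. -/
theorem result : ∃ H : Bip, (∃ x y, H.E x y) ∧
    liminf (seq H) atTop < limsup (seq H) atTop ∧ ¬ ∃ L : EReal, Tendsto (seq H) atTop (𝓝 L) := by
  have h1 : ∃ᶠ n in atTop, seq hesse n ≤ ⊥ := by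
    refine (frequently_mod 2 (by norm_num)).mono fun n hn => ?_
    have : Fact (Nat.nth Nat.Prime n).Prime := ⟨Nat.prime_nth_prime n⟩
    unfold seq logp
    rw [if_pos (inj_zero_of_two_mod (Nat.nth Nat.Prime n) hn)]
  have h2 : ∃ᶠ n in atTop, 0 ≤ seq hesse n := by
    refine (frequently_mod 1 (by norm_num)).mono fun n hn => ?_
    have : Fact (Nat.nth Nat.Prime n).Prime := ⟨Nat.prime_nth_prime n⟩
    have hpos := inj_pos_of_one_mod (Nat.nth Nat.Prime n) hn
    unfold seq logp
    rw [if_neg hpos.ne']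
    have h3 : (0 : ℝ) ≤ Real.logb (Nat.nth Nat.Prime n)
        (inj hesse (plane (ZMod (Nat.nth Nat.Prime n)))) := by
      apply Real.logb_nonneg
      · exact_mod_cast (Nat.prime_nth_prime n).one_lt
      · exact_mod_cast hpos
    exact_mod_cast h3
  have h3 : liminf (seq hesse) atTop < limsup (seq hesse) atTop := by
    have h4 := liminf_le_of_frequently_le' h1
    have h5 := le_limsup_of_frequently_le' h2
    exact lt_of_le_of_lt h4 (lt_of_lt_of_le (by simp) h5)
  refine ⟨hesse, ⟨((0 : Fin 3), (0 : ZMod 3)), (Sum.inl (0 : Fin 3) : Fin 3 ⊕ ZMod 3 × ZMod 3), rfl⟩,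
    h3, ?_⟩
  rintro ⟨L, hL⟩
  rw [hL.liminf_eq, hL.limsup_eq] at h3
  exact lt_irrefl _ h3

end Pool.Agent.Results.MP_5e7574_co.PrimePlanesDiverge
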